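import Pool.Agent.MP_f3836a_nt.VE.All

set_option autoImplicit false

namespace Pool.Agent.MP_f3836a_nt.Old.EllipticV

open IsLocalRing Pool.Agent.MP_f3836a_nt.VE.T Pool.Agent.MP_f3836a_nt.PT

theorem result (W : WeierstrassCurve ℚ) [W.IsElliptic]
    (u : ∀ P : Place W.toAffine.FunctionField, ResidueField P.V) (hne : ∀ P, u P ≠ 0)
    (hfin : {P | u P ≠ 1}.Finite) (hN : ∏ᶠ P, Place.nm P (u P) = 1) :
    ∃ n : ℕ, 0 < n ∧ ∃ l : List (W.toAffine.FunctionField × W.toAffine.FunctionField),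
      (∀ a ∈ l, a.1 ≠ 0 ∧ a.2 ≠ 0) ∧
      ∀ P, u P ^ n = (l.map fun a => tameW P.V a.1 a.2).prod :=
  final W u hne hfin hN

end Pool.Agent.MP_f3836a_nt.Old.EllipticV
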