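import Pool.Agent.MP_f3836a_nt.H23.Final

namespace Pool.Agent.MP_f3836a_nt.Old.GenusTwoK2

open Pool.Agent.MP_f3836a_nt.H23

/-- For a unit `t` of a number field `K` that is very small at one complex embedding and very large
at another one, the function field `F` of the curve `t x (x-1) (w²-1) = (x+1) (w²-x²)` over `K` has
four independent elements of `K₂(F)` with trivial tame symbol at every discrete valuation. -/
theorem result : ∃ ε : ℝ, 0 < ε ∧ ∀ (K : Type) [Field K] [NumberField K] (t : K),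
    IsIntegral ℤ t → IsIntegral ℤ t⁻¹ → ∀ σ₁ σ₂ : K →+* ℂ, ‖σ₁ t‖ < ε → ε⁻¹ < ‖σ₂ t‖ →
    ∀ (F : Type) [Field F] [Algebra K F] (x w : F), Transcendental K x →
      IntermediateField.adjoin K {x, w} = ⊤ →
      algebraMap K F t * x * (x - 1) * (w ^ 2 - 1) = (x + 1) * (w ^ 2 - x ^ 2) →
      4 ≤ rankK2ur F := by
  obtain ⟨ε, hε, h⟩ := main
  refine ⟨ε, hε, fun K _ _ t i1 i2 σ₁ σ₂ h1 h2 => h K t ?_ i1 i2 σ₁ σ₂ h1 ?_⟩
  · rintro rfl
    rw [map_zero, norm_zero] at h2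
    exact absurd h2 (not_lt.2 (inv_pos.2 hε).le)
  · rw [map_inv₀, norm_inv]
    exact inv_lt_of_inv_lt₀ hε h2

end Pool.Agent.MP_f3836a_nt.Old.GenusTwoK2
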