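import Pool.Agent.MP_f3836a_nt.VE.ZEnd

set_option autoImplicit false

namespace Pool.Agent.MP_f3836a_nt.Old.RegularH3

open AlgebraicGeometry CategoryTheory Pool.Agent.MP_f3836a_nt.PT

theorem result (W : WeierstrassCurve ℚ) [W.IsElliptic] (N : ℕ) (X : Scheme.{0}) (ι : X ⟶ PN N)
    [IsClosedImmersion ι] [IsIntegral X]
    (hreg : ∀ z : X, IsRegularLocalRing (X.presheaf.stalk z))
    (e : X.functionField ≃+* W.toAffine.FunctionField)
    (φ : ∀ C : X, X.residueField C) (hne : ∀ C, φ C ≠ 0) (hfin : {C | φ C ≠ 1}.Finite)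
    (hsupp : ∀ C, φ C ≠ 1 → Order.height C = 1)
    (hdiv : ∀ x : X, Order.height x = 0 → ∑ᶠ C, ordZ C x (φ C) = 0) :
    ∃ n : ℕ, 0 < n ∧ ∃ l : List (Σ y : X, X.residueField y × X.residueField y),
      (∀ a ∈ l, Order.height a.1 = 2 ∧ a.2.1 ≠ 0 ∧ a.2.2 ≠ 0) ∧
      ∀ C : X, Order.height C = 1 → φ C ^ n = (l.map fun a => bd a.1 C a.2.1 a.2.2).prod :=
  Pool.Agent.MP_f3836a_nt.VE.Z.End.finalZ W N X ι W.isUnit_Δ.ne_zero hreg ⟨e⟩ φ hne hfin hsupp hdiv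

end Pool.Agent.MP_f3836a_nt.Old.RegularH3
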