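import Pool.Agent.MP_f3836a_nt.H24.Final

namespace Pool.Agent.MP_f3836a_nt.Old.SexticK2

open Pool.Agent.MP_f3836a_nt.H23 Polynomial

/-- Infinitely many sextic polynomials with Galois group `S₆` are the minimal polynomial of the
`j`-invariant of an elliptic curve `E` over a totally real sextic field `K` whose function field has
six independent elements of `K₂` with trivial tame symbol at every discrete valuation. -/
theorem result : Set.Infinite {f : ℚ[X] | f.natDegree = 6 ∧
    Nonempty (f.Gal ≃* Equiv.Perm (Fin 6)) ∧
    ∃ (K : Type) (_ : Field K) (_ : NumberField K) (E : WeierstrassCurve K) (_ : E.IsElliptic),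
      Module.finrank ℚ K = 6 ∧ NumberField.IsTotallyReal K ∧ minpoly ℚ E.j = f ∧
        6 ≤ rankK2ur E.toAffine.FunctionField} :=
  Pool.Agent.MP_f3836a_nt.H24.main

end Pool.Agent.MP_f3836a_nt.Old.SexticK2
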