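import Pool.Agent.MP_f3836a_nt.GV.All

set_option autoImplicit false

namespace Pool.Agent.MP_f3836a_nt.Old.SurfaceH3

open AlgebraicGeometry CategoryTheory Pool.Agent.MP_f3836a_nt.PT

theorem result (N : ℕ) (X : Scheme.{0}) (ι : X ⟶ PN N) [IsClosedImmersion ι] [IsIntegral X]
    (hreg : ∀ z : X, IsRegularLocalRing (X.presheaf.stalk z)) (hdim : topologicalKrullDim X = 2)
    (C₀ : X) (h₁ : Order.height C₀ = 1) (h₀ : CharZero (X.residueField C₀)) :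
    (∀ φ : ∀ C : X, X.residueField C, (∀ C, φ C ≠ 0) → {C | φ C ≠ 1}.Finite →
      (∀ C, φ C ≠ 1 → Order.height C = 1) →
      (∀ x : X, Order.height x = 0 → ∑ᶠ C, ordZ C x (φ C) = 0) →
      ∃ n : ℕ, 0 < n ∧ ∃ (u : Γ(X, ⊤)ˣ) (l : List (Σ y : X, X.residueField y × X.residueField y)),
        (∀ a ∈ l, Order.height a.1 = 2 ∧ a.2.1 ≠ 0 ∧ a.2.2 ≠ 0) ∧
        φ C₀ ^ n = (X.Γevaluation C₀).hom u * (l.map fun a => bd a.1 C₀ a.2.1 a.2.2).prod ∧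
        ∀ C : X, Order.height C = 1 → C ≠ C₀ →
          φ C ^ n = (l.map fun a => bd a.1 C a.2.1 a.2.2).prod) ∧
    ∀ (u : Γ(X, ⊤)ˣ) (l : List (Σ y : X, X.residueField y × X.residueField y)),
      (∀ a ∈ l, Order.height a.1 = 2 ∧ a.2.1 ≠ 0 ∧ a.2.2 ≠ 0) →
      (X.Γevaluation C₀).hom u = (l.map fun a => bd a.1 C₀ a.2.1 a.2.2).prod →
      (∀ C : X, Order.height C = 1 → C ≠ C₀ →
        (l.map fun a => bd a.1 C a.2.1 a.2.2).prod = 1) →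
      ∃ n : ℕ, 0 < n ∧ u ^ n = 1 :=
  Pool.Agent.MP_f3836a_nt.GV.finalG N X ι hreg hdim C₀ h₁ h₀

end Pool.Agent.MP_f3836a_nt.Old.SurfaceH3
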